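import Pool.Agent.W85.QIter

/-!
# Iterating a polynomial-time step `c(x)^r(x)` times

Variant of `Pool.Agent.W85.QIter` (helper85): the pad is multiplied by `c(a) + 1`, `2 r(a) + 1` times,
and the time bound is stated for each input.
-/

set_option autoImplicit false

namespace Pool.Agent.W261.PIter

open Pool.Agent.NPC Turing
open Pool.Agent.W85.QIter (sz_rep poly_le_pow)

/-- The pad step. -/
def g1 {α : Type} [TEnc α] (c : α → ℕ) (p : α × List Unit) : α × List Unit :=
  (p.1, List.replicate ((c p.1 + 1) * p.2.length) ())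

theorem g1_poly {α : Type} [TEnc α] {c : α → ℕ} (hc : UPoly c) :
    Poly (g1 c : α × List Unit → α × List Unit) :=
  Poly.pair (Poly.fst Poly.id)
    (UPoly.mul (UPoly.add (hc.comp (Poly.fst Poly.id)) (UPoly.const 1))
      (UPoly.length (Poly.snd Poly.id)))

theorem g1_iter {α : Type} [TEnc α] (c : α → ℕ) (a : α) (k : ℕ) :
    ((g1 c)^[k] (a, [()])) = (a, List.replicate ((c a + 1) ^ k) ()) := by
  induction k with
  | zero => rfl
  | succ k ih =>
    rw [Function.iterate_succ_apply', ih]
    simp only [g1, List.length_replicate]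
    congr 2
    ring

/-- The total run. -/
theorem total {α σ β : Type} [TEnc α] [TEnc σ] [TEnc β]
    {init : α → σ} {step : σ → σ} {out : σ → β} (hi : Poly init) (hs : Poly step) (ho : Poly out)
    (q : Polynomial ℕ) {c r : α → ℕ} (hc : UPoly c) (hr : UPoly r) :
    ∃ (cm : Cmd ℕ) (R : Polynomial ℕ), ∀ a : α,
      (∀ k : ℕ, sz (step^[k] (init a)) ≤ (k + 1) * q.eval (sz a)) →
      Runs cm (inp (bits a))
        (inp (bits (out (step^[2 * (c a + 1) ^ (2 * r a + 1) + 1] (init a)))))
        (R.eval (sz a + (c a + 1) ^ (2 * r a + 1) + (2 * r a + 1))) := by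
  have hA : Poly (fun a : α => T.node (toT (List.replicate (r a) ()))
      (toT ((a, [()]) : α × List Unit))) :=
    Poly.node (Poly.toT' hr)
      (Poly.toT' (Poly.pair Poly.id (Pool.Agent.NPC.Poly.const [()])))
  have hC : Poly (fun p : α × List Unit => T.node (toT p.2) (toT (init p.1))) :=
    Poly.node (Poly.toT' (Poly.snd Poly.id)) (Poly.toT' (hi.comp (Poly.fst Poly.id)))
  obtain ⟨cA, pA, hA⟩ := hA
  obtain ⟨c1, p1, h1⟩ := g1_poly (α := α) hc
  obtain ⟨cC, pC, hC⟩ := hC
  obtain ⟨cS, pS, hS⟩ := hs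
  obtain ⟨cO, pO, hO⟩ := ho
  refine ⟨Cmd.seq cA (Cmd.seq split (Cmd.seq (Cmd.loop 1 (Cmd.seq (Cmd.pop 1) (ev c1)))
    (Cmd.seq cC (Cmd.seq split (Cmd.seq (Cmd.loop 1 (Cmd.seq (Cmd.pop 1) (ev cS))) cO))))),
    pA + (Polynomial.C 5 * Polynomial.X + Polynomial.C 3) +
      ((p1.comp (Polynomial.C 5 * Polynomial.X) + Polynomial.C 2) * Polynomial.X + Polynomial.C 1) +
      pC.comp (Polynomial.C 5 * Polynomial.X) +
      (Polynomial.C 5 * (Polynomial.C 2 * Polynomial.X + Polynomial.C 1) + Polynomial.C 3) +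
      ((pS.comp ((Polynomial.C 2 * Polynomial.X + Polynomial.C 2) * q) + Polynomial.C 2) *
        (Polynomial.C 2 * Polynomial.X + Polynomial.C 1) + Polynomial.C 1) +
      pO.comp ((Polynomial.C 2 * Polynomial.X + Polynomial.C 2) * q), fun a hsz => ?_⟩
  set n := sz a with hn
  set K1 := 2 * r a + 1 with hK1
  set Y := (c a + 1) ^ K1 with hY
  set W := n + Y + K1 with hW
  have hn1 : 0 < n := sz_pos a
  have hY1 : 0 < Y := by positivity
  have rA := hA a
  rw [inp_eq_st, inp_eq_st] at rA
  have rS1 := split_runs (toT (List.replicate (r a) ())) (toT ((a, [()]) : α × List Unit))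
  have sK1 : (toT (List.replicate (r a) ())).enc.reverse.length = K1 := by
    rw [List.length_reverse]
    exact sz_rep _
  have rL1 := loop_runs h1 (5 * W) (toT (List.replicate (r a) ())).enc.reverse
    ((a, [()]) : α × List Unit) (by
      intro k hk
      rw [sK1] at hk
      rw [g1_iter]
      change sz ((a, List.replicate ((c a + 1) ^ k) ()) : α × List Unit) ≤ _
      rw [sz_pair, sz_rep, ← hn]
      have : (c a + 1) ^ k ≤ Y := Nat.pow_le_pow_right (by omega) hk
      omega)
  rw [sK1, g1_iter, ← hY] at rL1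
  have rC := hC ((a, List.replicate Y ()) : α × List Unit)
  rw [inp_eq_st, inp_eq_st] at rC
  simp only at rC
  have rS2 := split_runs (toT (List.replicate Y ())) (toT (init a))
  have sK : (toT (List.replicate Y ())).enc.reverse.length = 2 * Y + 1 := by
    rw [List.length_reverse]
    exact sz_rep _
  have rL2 := loop_runs hS ((2 * W + 2) * q.eval W) (toT (List.replicate Y ())).enc.reverse
    (init a) (by
      intro k hk
      rw [sK] at hk
      refine (hsz k).trans ?_
      apply Nat.mul_le_mul (by omega)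
      exact eval_mono q (by omega))
  rw [sK] at rL2
  have rO := hO (step^[2 * Y + 1] (init a))
  rw [inp_eq_st, inp_eq_st] at rO
  rw [inp_eq_st, inp_eq_st]
  refine (rA.seq (rS1.seq (rL1.seq (rC.seq (rS2.seq (rL2.seq rO)))))).mono ?_
  have e1 : pA.eval (bits a).length ≤ pA.eval W := eval_mono pA (by
    change sz a ≤ W
    omega)
  have e2 : (toT (List.replicate (r a) ())).size ≤ W := by
    have : (toT (List.replicate (r a) ())).size = K1 := sz_rep _
    omega
  have e3 : (p1.eval (5 * W) + 2) * K1 ≤ (p1.eval (5 * W) + 2) * W :=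
    Nat.mul_le_mul_left _ (by omega)
  have e4 : pC.eval (bits ((a, List.replicate Y ()) : α × List Unit)).length ≤
      pC.eval (5 * W) := eval_mono pC (by
    change sz ((a, List.replicate Y ()) : α × List Unit) ≤ _
    rw [sz_pair, sz_rep, ← hn]
    omega)
  have e5 : (toT (List.replicate Y ())).size = 2 * Y + 1 := sz_rep _
  have e6 : pO.eval (bits (step^[2 * Y + 1] (init a))).length ≤
      pO.eval ((2 * W + 2) * q.eval W) := eval_mono pO (by
    refine (hsz (2 * Y + 1)).trans ?_
    apply Nat.mul_le_mul (by omega)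
    exact eval_mono q (by omega))
  have e7 : (pS.eval ((2 * W + 2) * q.eval W) + 2) * (2 * Y + 1) ≤
      (pS.eval ((2 * W + 2) * q.eval W) + 2) * (2 * W + 1) := Nat.mul_le_mul_left _ (by omega)
  simp only [Polynomial.eval_add, Polynomial.eval_mul, Polynomial.eval_C, Polynomial.eval_X,
    Polynomial.eval_comp]
  rw [e5]
  omega

/-- Iterating a polynomial-time step `c(x)^r(x)` times. -/
theorem param_iterate {ι α σ β : Type} [TEnc α] [TEnc σ] [TEnc β] (e : ι → α)
    {init : α → σ} {step : σ → σ} {out : σ → β} (hi : Poly init) (hs : Poly step) (ho : Poly out)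
    (q : Polynomial ℕ)
    (hsz : ∀ (x : ι) (k : ℕ), sz (step^[k] (init (e x))) ≤ (k + 1) * q.eval (sz (e x)))
    {c r : α → ℕ} (hc : UPoly c) (hr : UPoly r) :
    ∃ K : ι → ℕ, (∀ x, c (e x) ^ r (e x) ≤ K x) ∧
      ∃ (M : TM2ComputableAux Bool Bool) (C : ℕ), ∀ x, ∃ t : ℕ,
        t ≤ C * (sz (e x) * (c (e x) + 1) ^ r (e x)) ^ C ∧
        Nonempty (TM2OutputsInTime M.tm (List.map M.inputAlphabet.invFun (bits (e x)))
          (some (List.map M.outputAlphabet.invFun (bits (out (step^[K x] (init (e x))))))) t) := by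
  obtain ⟨cm, R, hR⟩ := total hi hs ho q hc hr
  obtain ⟨Pc, hPc⟩ := Poly.sz_le hc
  obtain ⟨Pr, hPr⟩ := Poly.sz_le hr
  -- bound of the argument of `R`
  set S : Polynomial ℕ := Polynomial.X + Polynomial.X ^ 2 * (Pc + 1) + Pr with hS
  obtain ⟨E, hE⟩ := poly_le_pow (R.comp S + 1)
  refine ⟨fun x => 2 * (c (e x) + 1) ^ (2 * r (e x) + 1) + 1, ?_, ?_⟩
  · intro x
    have h1 : c (e x) ^ r (e x) ≤ (c (e x) + 1) ^ r (e x) := Nat.pow_le_pow_left (by omega) _
    have h2 : (c (e x) + 1) ^ r (e x) ≤ (c (e x) + 1) ^ (2 * r (e x) + 1) :=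
      Nat.pow_le_pow_right (by omega) (by omega)
    dsimp only
    omega
  · refine ⟨{ tm := (cm.map (Fin.ofNat (cm.bd + 1))).toTM
              inputAlphabet := Equiv.refl Bool
              outputAlphabet := Equiv.refl Bool }, 2 ^ E, ?_⟩
    intro x
    obtain ⟨t, ht, hr'⟩ := hR (e x) (hsz x)
    have h1 := hr'.restrict (n := cm.bd) (by omega)
    refine ⟨t + 1, ?_, ?_⟩
    · set n := sz (e x) with hn
      have hn1 : 0 < n := sz_pos _
      set V := (c (e x) + 1) ^ r (e x) with hV
      have hV1 : 0 < V := by positivity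
      have b1 : 2 * c (e x) + 1 ≤ Pc.eval n := by
        have := hPc (e x)
        rwa [sz_rep] at this
      have b2 : 2 * r (e x) + 1 ≤ Pr.eval n := by
        have := hPr (e x)
        rwa [sz_rep] at this
      have hY : (c (e x) + 1) ^ (2 * r (e x) + 1) = V ^ 2 * (c (e x) + 1) := by
        rw [hV, pow_succ, ← pow_mul, mul_comm 2]
      set Z := n * V with hZ
      have hnZ : n ≤ Z := Nat.le_mul_of_pos_right _ hV1
      have hVZ : V ≤ Z := Nat.le_mul_of_pos_left _ hn1
      have hZ1 : 1 ≤ Z := le_trans hn1 hnZ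
      have hW : n + (c (e x) + 1) ^ (2 * r (e x) + 1) + (2 * r (e x) + 1) ≤ S.eval Z := by
        rw [hY, hS]
        simp only [Polynomial.eval_add, Polynomial.eval_mul, Polynomial.eval_pow,
          Polynomial.eval_X, Polynomial.eval_one]
        have a1 : V ^ 2 * (c (e x) + 1) ≤ Z ^ 2 * (Pc.eval Z + 1) := by
          apply Nat.mul_le_mul (Nat.pow_le_pow_left hVZ 2)
          have := eval_mono Pc hnZ
          omega
        have a2 := eval_mono Pr hnZ
        omega
      have h2 := hE (2 * Z) (by omega)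
      simp only [Polynomial.eval_add, Polynomial.eval_one, Polynomial.eval_comp] at h2
      have h3 : R.eval (S.eval Z) ≤ R.eval (S.eval (2 * Z)) :=
        eval_mono R (eval_mono S (by omega))
      have h4 : t ≤ R.eval (S.eval Z) := ht.trans (eval_mono R hW)
      calc t + 1 ≤ R.eval (S.eval (2 * Z)) + 1 := by omega
        _ ≤ (2 * Z) ^ E := h2
        _ = 2 ^ E * Z ^ E := mul_pow _ _ _
        _ ≤ 2 ^ E * Z ^ (2 ^ E) :=
          Nat.mul_le_mul_left _ (Nat.pow_le_pow_right hZ1 Nat.lt_two_pow_self.le)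
    · have h5 : Nonempty (TM2OutputsInTime (cm.map (Fin.ofNat (cm.bd + 1))).toTM (bits (e x))
          (some (bits (out (step^[2 * (c (e x) + 1) ^ (2 * r (e x) + 1) + 1] (init (e x))))))
            (t + 1)) := by
        apply toTM_outputs
        convert! h1 using 1
        · funext i
          by_cases hi : i = 0
          · subst hi; simp [inp]
          · have : (i : ℕ) ≠ 0 := fun h => hi (Fin.ext h)
            simp [inp, hi, this]
        · funext i
          by_cases hi : i = 0
          · subst hi; simp [inp]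
          · have : (i : ℕ) ≠ 0 := fun h => hi (Fin.ext h)
            simp [inp, hi, this]
      exact ⟨outputs_conv (List.map_id _).symm (List.map_id _).symm le_rfl h5.some⟩

end Pool.Agent.W261.PIter
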