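import Pool.Agent.W89.PW.Defs
import Pool.Agent.H623R3.PBT8
import Pool.Agent.H885R3.PB_T7

/-!
# PW-6: level of distribution of palindromes with weighted digits

Port of `Pool.Agent.H623R3.PBT8` and `Pool.Agent.H885R3.PBT7`.
-/

set_option autoImplicit false

namespace Pool.Agent.W261.PWBV

open Finset Filter Topology Pool.Agent.Helper112
open Pool.Agent.H39R3.PB (ph pts ph_nonneg ph_le_one)
open Pool.Agent.W89.PW
open Pool.Agent.H760R2.PalT7 (dec small)
open Pool.Agent.H623R3.PBT8 (orth group coprime_pos)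
open Pool.Agent.H885R3.PBT7 (cover)

lemma ps_nonneg (s t : ℕ) (x : ℝ) : 0 ≤ ps s t x := mul_nonneg (ph_nonneg _ _) (ph_nonneg _ _)

lemma Fw_nonneg (b s t L J : ℕ) (α : ℝ) : 0 ≤ Fw b s t L J α := prod_nonneg fun _ _ => ps_nonneg _ _ _

/-- the reduced part at denominator `q` -/
noncomputable def U (b s t L q : ℕ) : ℝ :=
  ∑ a ∈ (range q).filter (fun a => a.Coprime q), Fw b s t L L ((a : ℝ) / q)

lemma U_nonneg (b s t L q : ℕ) : 0 ≤ U b s t L q := by
  unfold U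
  exact sum_nonneg fun _ _ => Fw_nonneg _ _ _ _ _ _

/-- the exponential sum over palindromes is a product -/
lemma norm_sum_pv {s t : ℕ} (hs : 0 < s) (ht : 0 < t) (b L : ℕ) (α : ℝ) :
    ‖∑ m : Fin L → Fin s × Fin t, ee (α * (pv b s t L m : ℝ))‖ =
      ((s : ℝ) * t) ^ L * Fw b s t L L α := by
  have hsr : (s : ℝ) ≠ 0 := by exact_mod_cast hs.ne'
  have htr : (t : ℝ) ≠ 0 := by exact_mod_cast ht.ne'
  have h1 : ∀ m : Fin L → Fin s × Fin t, ee (α * (pv b s t L m : ℝ)) =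
      ee (α * ((b : ℝ) ^ (2 * L + 2) + (b : ℝ) ^ (L + 1) + 1)) *
        ∏ c : Fin L, ee (((((m c).1 : ℕ) : ℝ) + (((m c).2 : ℕ) : ℝ)) * (fr b L c * α)) := by
    intro m
    have h2 : ∏ c : Fin L, ee (((((m c).1 : ℕ) : ℝ) + (((m c).2 : ℕ) : ℝ)) * (fr b L c * α)) =
        ee (∑ c : Fin L, ((((m c).1 : ℕ) : ℝ) + (((m c).2 : ℕ) : ℝ)) * (fr b L c * α)) := by
      have : ∀ s' : Finset (Fin L), ∏ c ∈ s', ee (((((m c).1 : ℕ) : ℝ) + (((m c).2 : ℕ) : ℝ)) *
          (fr b L c * α)) =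
          ee (∑ c ∈ s', ((((m c).1 : ℕ) : ℝ) + (((m c).2 : ℕ) : ℝ)) * (fr b L c * α)) := by
        intro s'
        induction s' using Finset.induction_on with
        | empty => simp [ls_ee_zero]
        | insert a s' ha ih => rw [prod_insert ha, sum_insert ha, ls_ee_add, ih]
      exact this univ
    rw [h2, ← ls_ee_add]
    congr 1
    unfold pv
    push_cast
    rw [mul_add, mul_sum]
    congr 1
    refine sum_congr rfl fun c _ => ?_
    ring
  rw [sum_congr rfl (fun m _ => h1 m), ← mul_sum, norm_mul, ls_norm_ee, one_mul]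
  have h3 : ∑ m : Fin L → Fin s × Fin t,
      ∏ c : Fin L, ee (((((m c).1 : ℕ) : ℝ) + (((m c).2 : ℕ) : ℝ)) * (fr b L c * α)) =
      ∏ c : Fin L, ∑ x : Fin s × Fin t, ee ((((x.1 : ℕ) : ℝ) + ((x.2 : ℕ) : ℝ)) * (fr b L c * α)) := by
    rw [Finset.prod_univ_sum, Fintype.piFinset_univ]
  rw [h3, norm_prod]
  have h4 : ∀ c : Fin L, ‖∑ x : Fin s × Fin t, ee ((((x.1 : ℕ) : ℝ) + ((x.2 : ℕ) : ℝ)) *
      (fr b L c * α))‖ = ((s : ℝ) * t) * ps s t (fr b L (c : ℕ) * α) := by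
    intro c
    have h5 : ∑ x : Fin s × Fin t, ee ((((x.1 : ℕ) : ℝ) + ((x.2 : ℕ) : ℝ)) * (fr b L c * α)) =
        (∑ i ∈ range s, ee ((i : ℝ) * (fr b L c * α))) * ∑ j ∈ range t, ee ((j : ℝ) * (fr b L c * α)) := by
      rw [Fintype.sum_prod_type, ← Fin.sum_univ_eq_sum_range (fun x : ℕ => ee ((x : ℝ) * (fr b L c * α))) s,
        ← Fin.sum_univ_eq_sum_range (fun x : ℕ => ee ((x : ℝ) * (fr b L c * α))) t, sum_mul_sum]
      refine sum_congr rfl fun i _ => sum_congr rfl fun j _ => ?_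
      rw [← ls_ee_add]
      congr 1
      ring
    rw [h5, norm_mul]
    unfold ps ph
    generalize ‖∑ i ∈ range s, ee ((i : ℝ) * (fr b L c * α))‖ = X
    generalize ‖∑ j ∈ range t, ee ((j : ℝ) * (fr b L c * α))‖ = Y
    field_simp
  rw [prod_congr rfl (fun c _ => h4 c), prod_mul_distrib, prod_const, card_univ, Fintype.card_fin]
  congr 1
  unfold Fw
  rw [Fin.prod_univ_eq_prod_range (fun j => ps s t (fr b L j * α)) L]

/-- counting by exponential sums -/
theorem cnt_bound {s t : ℕ} (hs : 0 < s) (ht : 0 < t) (b L q : ℕ) (hq : q.Coprime (2 * b)) :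
    |cnt b s t L q - ((s : ℝ) * t) ^ L / q| ≤
      ((s : ℝ) * t) ^ L / q * ∑ d ∈ q.divisors.filter (fun d => 1 < d), U b s t L d := by
  have hq0 := coprime_pos hq
  have hqr : (0 : ℝ) < q := by exact_mod_cast hq0
  have hqc : (q : ℂ) ≠ 0 := by exact_mod_cast hq0.ne'
  -- Fourier expansion
  set T : ℕ → ℂ := fun a => ∑ m : Fin L → Fin s × Fin t,
    ee ((a : ℝ) / q * (pv b s t L m : ℝ)) with hT
  have h1 : (cnt b s t L q : ℂ) = (1 / (q : ℂ)) * ∑ a ∈ range q, T a := by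
    have h2 : (cnt b s t L q : ℂ) = ∑ m : Fin L → Fin s × Fin t,
        (1 / (q : ℂ)) * ∑ a ∈ range q, ee ((a : ℝ) * ((((pv b s t L m : ℕ) : ℝ) - ((0 : ℕ) : ℝ)) / q)) := by
      unfold cnt
      rw [Finset.card_filter]
      push_cast
      refine sum_congr rfl fun m _ => ?_
      have := orth hq0 (pv b s t L m) 0
      push_cast at this
      rw [this]
      by_cases hm : q ∣ pv b s t L m
      · rw [if_pos hm, if_pos (Nat.modEq_zero_iff_dvd.2 hm)]
        push_cast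
        field_simp
      · rw [if_neg hm, if_neg (fun h => hm (Nat.modEq_zero_iff_dvd.1 h))]
        simp
    rw [h2, ← mul_sum, sum_comm]
    congr 1
    refine sum_congr rfl fun a _ => ?_
    simp only [hT]
    refine sum_congr rfl fun m _ => ?_
    congr 1
    push_cast
    ring
  have hT0 : T 0 = ((s : ℂ) * t) ^ L := by
    simp only [hT]
    simp [ls_ee_zero]
  have hTn : ∀ a, ‖T a‖ = ((s : ℝ) * t) ^ L * Fw b s t L L ((a : ℝ) / q) := by
    intro a
    simp only [hT]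
    rw [norm_sum_pv hs ht]
  have h3 : (cnt b s t L q : ℂ) - ((s : ℂ) * t) ^ L / q =
      (1 / (q : ℂ)) * ∑ a ∈ (range q).erase 0, T a := by
    rw [h1, ← Finset.add_sum_erase _ _ (mem_range.2 hq0), hT0]
    ring
  have h4 : |cnt b s t L q - ((s : ℝ) * t) ^ L / q| ≤ (1 / (q : ℝ)) * ∑ a ∈ (range q).erase 0,
      ((s : ℝ) * t) ^ L * Fw b s t L L ((a : ℝ) / q) := by
    have h5 : |cnt b s t L q - ((s : ℝ) * t) ^ L / q| = ‖(cnt b s t L q : ℂ) - ((s : ℂ) * t) ^ L / q‖ := by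
      rw [← Real.norm_eq_abs, ← Complex.norm_real]
      push_cast
      rfl
    rw [h5, h3, norm_mul]
    have h6 : ‖(1 / (q : ℂ))‖ = 1 / (q : ℝ) := by simp
    rw [h6]
    refine mul_le_mul_of_nonneg_left ?_ (by positivity)
    refine (norm_sum_le _ _).trans (le_of_eq ?_)
    exact sum_congr rfl fun a _ => hTn a
  refine h4.trans (le_of_eq ?_)
  rw [← mul_sum]
  have h7 : ∑ a ∈ (range q).erase 0, Fw b s t L L ((a : ℝ) / q) =
      ∑ d ∈ q.divisors.filter (fun d => 1 < d), U b s t L d := by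
    have h8 := group hq0 (Fw b s t L L)
    rw [← Finset.add_sum_erase _ _ (mem_range.2 hq0)] at h8
    have h9 : q.divisors.filter (fun d => 1 < d) = q.divisors.erase 1 := by
      ext d
      rw [mem_filter, mem_erase, Nat.mem_divisors]
      constructor
      · rintro ⟨h1, h2⟩
        exact ⟨by omega, h1⟩
      · rintro ⟨h1, h2⟩
        refine ⟨h2, ?_⟩
        have := Nat.pos_of_dvd_of_pos h2.1 hq0
        omega
    have h10 : (1 : ℕ) ∈ q.divisors := Nat.one_mem_divisors.2 hq0.ne'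
    rw [← Finset.add_sum_erase _ _ h10] at h8
    have h11 : ∑ a ∈ (range 1).filter (fun a => a.Coprime 1), Fw b s t L L ((a : ℝ) / (1 : ℕ)) =
        Fw b s t L L (((0 : ℕ) : ℝ) / q) := by
      simp
    rw [h11] at h8
    rw [h9]
    unfold U
    linarith
  rw [h7]
  ring

/-- the double sum over multiples -/
lemma double (b s t L D : ℕ) :
    ∑ q ∈ (Icc 1 D).filter (fun q => q.Coprime (2 * b)),
      (q.divisors.card : ℝ) ^ 2 * (((s : ℝ) * t) ^ L / q *
        ∑ d ∈ q.divisors.filter (fun d => 1 < d), U b s t L d) ≤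
    ((s : ℝ) * t) ^ L * ((∑ d ∈ (Icc 2 D).filter (fun q => q.Coprime (2 * b)),
      (d.divisors.card : ℝ) ^ 2 * U b s t L d / d) *
        ∑ e ∈ Icc 1 D, (e.divisors.card : ℝ) ^ 2 / e) := by
  generalize hP : ((s : ℝ) * t) ^ L = P
  have hP0 : 0 ≤ P := by rw [← hP]; positivity
  have h1 : ∀ q ∈ (Icc 1 D).filter (fun q => q.Coprime (2 * b)),
      (q.divisors.card : ℝ) ^ 2 * (P / q * ∑ d ∈ q.divisors.filter (fun d => 1 < d), U b s t L d) ≤
      ∑ d ∈ q.divisors.filter (fun d => 1 < d), P * (((d.divisors.card : ℝ) ^ 2 * U b s t L d / d) *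
        (((q / d).divisors.card : ℝ) ^ 2 / ((q / d : ℕ) : ℝ))) := by
    intro q hq
    rw [mem_filter, mem_Icc] at hq
    have hq0 : 0 < q := hq.1.1
    rw [mul_sum, mul_sum]
    refine sum_le_sum fun d hd => ?_
    rw [mem_filter, Nat.mem_divisors] at hd
    obtain ⟨⟨⟨e, he⟩, _⟩, hd1⟩ := hd
    have hd0 : 0 < d := by omega
    have he0 : 0 < e := by
      rcases Nat.eq_zero_or_pos e with h0 | h0
      · subst h0; simp at he; omega
      · exact h0
    have hqd : q / d = e := by rw [he, Nat.mul_div_cancel_left _ hd0]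
    rw [hqd, he]
    have hd' : (0 : ℝ) < d := by exact_mod_cast hd0
    have he' : (0 : ℝ) < e := by exact_mod_cast he0
    have ht : ((d * e).divisors.card : ℝ) ≤ (d.divisors.card : ℝ) * e.divisors.card := by
      exact_mod_cast Pool.Agent.H316R2.tau_mul_le d e
    have ht2 : ((d * e).divisors.card : ℝ) ^ 2 ≤
        ((d.divisors.card : ℝ) * e.divisors.card) ^ 2 := by gcongr
    have hU := U_nonneg b s t L d
    push_cast
    calc ((d * e).divisors.card : ℝ) ^ 2 * (P / (d * e) * U b s t L d)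
        ≤ ((d.divisors.card : ℝ) * e.divisors.card) ^ 2 * (P / (d * e) * U b s t L d) := by
          gcongr
      _ = _ := by
          field_simp
  refine (sum_le_sum h1).trans ?_
  rw [sum_sigma', sum_mul_sum, mul_sum]
  simp_rw [mul_sum]
  rw [sum_sigma' (s := (Icc 2 D).filter (fun q => q.Coprime (2 * b))) (t := fun _ => Icc 1 D)]
  -- injection `(q, d) ↦ (d, q / d)`
  set g : (_ : ℕ) × ℕ → (_ : ℕ) × ℕ := fun x => ⟨x.2, x.1 / x.2⟩ with hg
  set F : (_ : ℕ) × ℕ → ℝ := fun x => P * (((x.1.divisors.card : ℝ) ^ 2 * U b s t L x.1 / x.1) *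
        ((x.2.divisors.card : ℝ) ^ 2 / (x.2 : ℝ))) with hF
  have hinj : Set.InjOn g (((Icc 1 D).filter (fun q => q.Coprime (2 * b))).sigma
      (fun q => q.divisors.filter (fun d => 1 < d)) : Finset ((_ : ℕ) × ℕ)) := by
    rintro ⟨q, d⟩ hx ⟨q', d'⟩ hx' hxx
    rw [Finset.mem_coe, mem_sigma, mem_filter, mem_filter, Nat.mem_divisors] at hx hx'
    simp only [hg, Sigma.mk.injEq, heq_eq_eq] at hxx
    obtain ⟨h1, h2⟩ := hxx
    simp only at hx hx'
    subst h1
    have h3 : q = q' := by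
      rw [← Nat.div_mul_cancel hx.2.1.1, h2, Nat.div_mul_cancel hx'.2.1.1]
    subst h3
    rfl
  have hsum : ∑ x ∈ ((Icc 1 D).filter (fun q => q.Coprime (2 * b))).sigma
      (fun q => q.divisors.filter (fun d => 1 < d)), F (g x) =
      ∑ y ∈ (((Icc 1 D).filter (fun q => q.Coprime (2 * b))).sigma
      (fun q => q.divisors.filter (fun d => 1 < d))).image g, F y := by
    rw [sum_image hinj]
  have hgoal : ∑ x ∈ ((Icc 1 D).filter (fun q => q.Coprime (2 * b))).sigma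
      (fun q => q.divisors.filter (fun d => 1 < d)), F (g x) ≤
      ∑ y ∈ ((Icc 2 D).filter (fun q => q.Coprime (2 * b))).sigma (fun _ => Icc 1 D), F y := by
    rw [hsum]
    refine sum_le_sum_of_subset_of_nonneg ?_ ?_
    · intro y hy
      rw [mem_image] at hy
      obtain ⟨⟨q, d⟩, hx, rfl⟩ := hy
      rw [mem_sigma, mem_filter, mem_filter, Nat.mem_divisors, mem_Icc] at hx
      simp only at hx
      obtain ⟨⟨⟨hq1, hqD⟩, hqc⟩, ⟨hdq, _⟩, hd1⟩ := hx
      rw [mem_sigma, mem_filter, mem_Icc, mem_Icc]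
      simp only [hg]
      have hle := Nat.le_of_dvd hq1 hdq
      refine ⟨⟨⟨hd1, hle.trans hqD⟩, Nat.Coprime.coprime_dvd_left hdq hqc⟩, ?_, ?_⟩
      · exact Nat.div_pos hle (by omega)
      · exact (Nat.div_le_self _ _).trans hqD
    · intro y _ _
      simp only [hF]
      have := U_nonneg b s t L y.1
      positivity
  exact hgoal

/-- a dyadic block in terms of `pts` -/
lemma block (b s t L Q : ℕ) (hQ : 1 ≤ Q) (d C : ℝ) (hd : 0 ≤ d) (hC : 0 ≤ C)
    (hτ : ∀ n : ℕ, 1 ≤ n → (n.divisors.card : ℝ) ^ 2 ≤ C * (n : ℝ) ^ d) :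
    ∑ q ∈ (Ico Q (2 * Q)).filter (fun q => q.Coprime (2 * b)),
      (q.divisors.card : ℝ) ^ 2 * U b s t L q / q ≤
      C * (2 * Q : ℝ) ^ d / Q * pts b Q (Fw b s t L L) := by
  unfold pts
  rw [mul_sum]
  apply sum_le_sum
  intro q hq
  rw [mem_filter, mem_Ico] at hq
  obtain ⟨⟨h1, h2⟩, h3⟩ := hq
  have hQ0 : (0 : ℝ) < Q := by exact_mod_cast hQ
  have hq0 : (0 : ℝ) < q := by exact_mod_cast (show 0 < q by omega)
  have hU := U_nonneg b s t L q
  have e1 : (q.divisors.card : ℝ) ^ 2 ≤ C * (2 * Q : ℝ) ^ d := by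
    refine (hτ q (by omega)).trans (mul_le_mul_of_nonneg_left ?_ hC)
    apply Real.rpow_le_rpow hq0.le _ hd
    exact_mod_cast h2.le
  have e2 : (1 : ℝ) / q ≤ 1 / Q := by
    apply one_div_le_one_div_of_le hQ0
    exact_mod_cast h1
  calc (q.divisors.card : ℝ) ^ 2 * U b s t L q / q
      = (q.divisors.card : ℝ) ^ 2 * U b s t L q * (1 / q) := by ring
    _ ≤ (C * (2 * Q : ℝ) ^ d) * U b s t L q * (1 / Q) := by
        apply mul_le_mul (mul_le_mul_of_nonneg_right e1 hU) e2 (by positivity)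
        have : 0 ≤ C * (2 * Q : ℝ) ^ d := by positivity
        exact mul_nonneg this hU
    _ = C * (2 * Q : ℝ) ^ d / Q * U b s t L q := by ring

/-- the small range: a dyadic block -/
lemma block_small (b s t : ℕ) (hb : 2 ≤ b) (κ : ℝ) (h0 : 0 < κ) (h1 : κ < 1)
    (hp : ∀ q h a L : ℕ, 1 < q → q.Coprime (2 * b) → a.Coprime q →
      q < b ^ h → Fw b s t L L ((a : ℝ) / q) ≤ (1 - κ) ^ (L / (2 * h + 2)))
    (L j : ℕ) (hj : 1 ≤ j) :
    ∑ q ∈ (Ico (2 ^ j) (2 * 2 ^ j)).filter (fun q => q.Coprime (2 * b)),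
      (q.divisors.card : ℝ) ^ 2 * U b s t L q / q ≤
      (2 : ℝ) ^ (3 * j + 2) * (1 - κ) ^ ((L - 1) / (2 * j + 4)) := by
  have hk : 0 < 1 - κ := by linarith
  set E : ℝ := (1 - κ) ^ ((L - 1) / (2 * j + 4)) with hE
  have hE0 : 0 < E := by positivity
  have hterm : ∀ q ∈ (Ico (2 ^ j) (2 * 2 ^ j)).filter (fun q => q.Coprime (2 * b)),
      (q.divisors.card : ℝ) ^ 2 * U b s t L q / q ≤ (2 * 2 ^ j) ^ 2 * E := by
    intro q hq
    rw [mem_filter, mem_Ico] at hq
    obtain ⟨⟨h2, h3⟩, h4⟩ := hq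
    have h2j : 2 ^ 1 ≤ 2 ^ j := Nat.pow_le_pow_right (by norm_num) hj
    have hq1 : 1 < q := by omega
    have hq0 : (0 : ℝ) < q := by exact_mod_cast (show 0 < q by omega)
    have hq10 : q < b ^ (j + 1) := by
      calc q < 2 * 2 ^ j := h3
        _ = 2 ^ (j + 1) := by ring
        _ ≤ b ^ (j + 1) := Nat.pow_le_pow_left hb _
    have hU : U b s t L q ≤ q * E := by
      unfold U
      calc ∑ a ∈ (range q).filter (fun a => a.Coprime q), Fw b s t L L ((a : ℝ) / q)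
          ≤ ∑ a ∈ (range q).filter (fun a => a.Coprime q), E := by
            apply sum_le_sum
            intro a ha
            rw [mem_filter] at ha
            have := hp q (j + 1) a L hq1 h4 ha.2 hq10
            have e : 2 * (j + 1) + 2 = 2 * j + 4 := by ring
            rw [e] at this
            refine this.trans ?_
            apply pow_le_pow_of_le_one hk.le (by linarith)
            exact Nat.div_le_div_right (Nat.sub_le L 1)
        _ = (((range q).filter (fun a => a.Coprime q)).card : ℝ) * E := by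
            rw [sum_const, nsmul_eq_mul]
        _ ≤ q * E := by
            apply mul_le_mul_of_nonneg_right _ hE0.le
            have := card_filter_le (range q) (fun a => a.Coprime q)
            rw [card_range] at this
            exact_mod_cast this
    have hτ : (q.divisors.card : ℝ) ≤ 2 * 2 ^ j := by
      have e1 : q.divisors.card ≤ q := Nat.card_divisors_le_self q
      have e2 : q.divisors.card ≤ 2 * 2 ^ j := by omega
      exact_mod_cast e2
    rw [div_le_iff₀ hq0]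
    calc (q.divisors.card : ℝ) ^ 2 * U b s t L q ≤ (2 * 2 ^ j) ^ 2 * (q * E) := by
          apply mul_le_mul _ hU (U_nonneg b s t L q) (by positivity)
          exact pow_le_pow_left₀ (by positivity) hτ 2
      _ = (2 * 2 ^ j) ^ 2 * E * q := by ring
  calc _ ≤ ∑ q ∈ (Ico (2 ^ j) (2 * 2 ^ j)).filter (fun q => q.Coprime (2 * b)),
        ((2 * 2 ^ j) ^ 2 * E : ℝ) := sum_le_sum hterm
    _ = (((Ico (2 ^ j) (2 * 2 ^ j)).filter (fun q => q.Coprime (2 * b))).card : ℝ)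
        * ((2 * 2 ^ j) ^ 2 * E) := by rw [sum_const, nsmul_eq_mul]
    _ ≤ 2 ^ j * ((2 * 2 ^ j) ^ 2 * E) := by
        apply mul_le_mul_of_nonneg_right _ (by positivity)
        have := card_filter_le (Ico (2 ^ j) (2 * 2 ^ j)) (fun q => q.Coprime (2 * b))
        rw [Nat.card_Ico] at this
        have e : 2 * 2 ^ j - 2 ^ j = 2 ^ j := by omega
        rw [e] at this
        exact_mod_cast this
    _ = (2 : ℝ) ^ (3 * j + 2) * E := by ring

/-- the large range -/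
lemma large_range (b s t : ℕ) (κ c1 C1 C δ : ℝ) (hc1 : 0 < c1)
    (hC1 : 0 < C1) (hC : 0 < C) (hδ : 0 < δ) (A : ℕ)
    (hτ : ∀ n : ℕ, 1 ≤ n → (n.divisors.card : ℝ) ^ 2 ≤ C1 * (n : ℝ) ^ (δ / 2))
    (big : ∀ L Q : ℕ, 1 ≤ Q → (Q : ℝ) ≤ (b : ℝ) ^ (κ * L) →
      pts b Q (Fw b s t L L) ≤ C * (Q : ℝ) ^ (1 - δ)) :
    ∀ᶠ L : ℕ in atTop, ∀ j : ℕ, 1 ≤ j → c1 * Real.sqrt L < j → (2 : ℝ) ^ j ≤ (b : ℝ) ^ (κ * L) →
      ∑ q ∈ (Ico (2 ^ j) (2 * 2 ^ j)).filter (fun q => q.Coprime (2 * b)),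
        (q.divisors.card : ℝ) ^ 2 * U b s t L q / q ≤ 1 / (L : ℝ) ^ A := by
  have hl2 : 0 < Real.log 2 := Real.log_pos (by norm_num)
  filter_upwards [dec (δ / 2 * Real.log 2 * c1) (C1 * 2 ^ (δ / 2) * C) (by positivity)
    (by positivity) A] with L hL j hj hcj hjD
  refine le_trans ?_ hL
  set Q : ℕ := 2 ^ j with hQ
  have hQ1 : 1 ≤ Q := Nat.one_le_two_pow
  have hQ0 : (0 : ℝ) < Q := by exact_mod_cast hQ1
  have hQr : (Q : ℝ) = 2 ^ j := by rw [hQ]; push_cast; ring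
  have hpts := big L Q hQ1 (by rw [hQr]; exact hjD)
  have hbl := block b s t L Q hQ1 (δ / 2) C1 (by positivity) hC1.le hτ
  refine hbl.trans ?_
  have hpos : 0 ≤ C1 * (2 * Q : ℝ) ^ (δ / 2) / Q := by positivity
  refine (mul_le_mul_of_nonneg_left hpts hpos).trans ?_
  have h1 : C1 * (2 * Q : ℝ) ^ (δ / 2) / Q * (C * (Q : ℝ) ^ (1 - δ)) =
      C1 * 2 ^ (δ / 2) * C * (Q : ℝ) ^ (-(δ / 2)) := by
    have h2 : (Q : ℝ) ^ (δ / 2) * (Q : ℝ) ^ (1 - δ) = (Q : ℝ) ^ (-(δ / 2)) * Q := by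
      rw [← Real.rpow_add hQ0, ← Real.rpow_add_one hQ0.ne']
      congr 1
      ring
    rw [Real.mul_rpow (by norm_num) hQ0.le]
    calc C1 * (2 ^ (δ / 2) * (Q : ℝ) ^ (δ / 2)) / Q * (C * (Q : ℝ) ^ (1 - δ))
        = C1 * 2 ^ (δ / 2) * C * ((Q : ℝ) ^ (δ / 2) * (Q : ℝ) ^ (1 - δ)) / Q := by ring
      _ = C1 * 2 ^ (δ / 2) * C * ((Q : ℝ) ^ (-(δ / 2)) * Q) / Q := by rw [h2]
      _ = _ := by field_simp
  rw [h1]
  apply mul_le_mul_of_nonneg_left _ (by positivity)
  have h3 : (Q : ℝ) ^ (-(δ / 2)) = Real.exp (-(δ / 2 * Real.log 2 * j)) := by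
    rw [Real.rpow_def_of_pos hQ0, hQr, Real.log_pow]
    congr 1
    ring
  rw [h3]
  apply Real.exp_le_exp.2
  have h4 : δ / 2 * Real.log 2 * (c1 * Real.sqrt L) ≤ δ / 2 * Real.log 2 * j :=
    mul_le_mul_of_nonneg_left hcj.le (by positivity)
  linarith

/-- the sum of the `U` -/
theorem U_sum (b s t : ℕ) (hb : 2 ≤ b) (hP : PtW b s t) (κ : ℝ) (h0 : 0 < κ) (h1 : κ < 1)
    (hB : BigW b s t κ) (A : ℕ) : ∀ᶠ L : ℕ in atTop,
    ∑ d ∈ (Icc 2 ⌊(b : ℝ) ^ (κ * L)⌋₊).filter (fun q => q.Coprime (2 * b)),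
      (d.divisors.card : ℝ) ^ 2 * U b s t L d / d ≤ 1 / (L : ℝ) ^ A := by
  obtain ⟨κ', hκ0, hκ1, hp⟩ := hP
  obtain ⟨C, δ, hC, hδ, hδ1, big⟩ := hB
  obtain ⟨c1, hc1, hsmall⟩ := small κ' hκ0 hκ1 (A + 2)
  have hbR : (2 : ℝ) ≤ b := by exact_mod_cast hb
  have hBl : 0 < Real.log b := Real.log_pos (by linarith)
  obtain ⟨C1, hC1, hτ1⟩ := divisor_bound (δ / 4) (by positivity)
  have hτ1' : ∀ n : ℕ, 1 ≤ n → (n.divisors.card : ℝ) ^ 2 ≤ C1 ^ 2 * (n : ℝ) ^ (δ / 2) := by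
    intro n hn
    have h1 := hτ1 n hn
    have h2 : ((n : ℝ) ^ (δ / 4)) ^ 2 = (n : ℝ) ^ (δ / 2) := by
      rw [← Real.rpow_natCast, ← Real.rpow_mul (by positivity)]
      congr 1
      push_cast
      ring
    calc (n.divisors.card : ℝ) ^ 2 ≤ (C1 * (n : ℝ) ^ (δ / 4)) ^ 2 :=
          pow_le_pow_left₀ (by positivity) h1 2
      _ = _ := by rw [mul_pow, h2]
  have hlarge := large_range b s t κ c1 (C1 ^ 2) C δ hc1 (by positivity) hC hδ (A + 2) hτ1' big
  have hLB : ∀ᶠ L : ℕ in atTop, 2 * Real.log b ≤ (L : ℝ) :=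
    tendsto_natCast_atTop_atTop.eventually_ge_atTop _
  filter_upwards [hsmall, hlarge, eventually_ge_atTop 2, hLB] with L h1' h2' hL2 hLB'
  set D : ℕ := ⌊(b : ℝ) ^ (κ * L)⌋₊ with hD
  have hLp : (2 : ℝ) ≤ L := by exact_mod_cast hL2
  have hg : ∀ q : ℕ, 0 ≤ (q.divisors.card : ℝ) ^ 2 * U b s t L q / q := fun q =>
    div_nonneg (mul_nonneg (by positivity) (U_nonneg b s t L q)) (Nat.cast_nonneg q)
  refine (cover (2 * b) D _ hg).trans ?_
  have hDr : (D : ℝ) ≤ (b : ℝ) ^ (κ * L) := Nat.floor_le (by positivity)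
  have hterm : ∀ j ∈ Icc 1 (Nat.log 2 D),
      ∑ q ∈ (Ico (2 ^ j) (2 * 2 ^ j)).filter (fun q => q.Coprime (2 * b)),
        (q.divisors.card : ℝ) ^ 2 * U b s t L q / q ≤ 1 / (L : ℝ) ^ (A + 2) := by
    intro j hj
    rw [mem_Icc] at hj
    have hD0 : D ≠ 0 := by
      intro h0
      rw [h0] at hj
      simp at hj
      omega
    have hjD : (2 : ℝ) ^ j ≤ (b : ℝ) ^ (κ * L) := by
      have e1 : 2 ^ j ≤ D :=
        (Nat.pow_le_pow_right (by norm_num) hj.2).trans (Nat.pow_log_le_self 2 hD0)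
      have e2 : (2 : ℝ) ^ j ≤ D := by exact_mod_cast e1
      exact e2.trans hDr
    rcases le_or_gt (j : ℝ) (c1 * Real.sqrt L) with h | h
    · exact (block_small b s t hb κ' hκ0 hκ1 hp L j hj.1).trans (h1' j h)
    · exact h2' j hj.1 h hjD
  refine (sum_le_sum hterm).trans ?_
  rw [sum_const, nsmul_eq_mul, Nat.card_Icc, Nat.add_sub_cancel]
  have hlog : (Nat.log 2 D : ℝ) ≤ L * (2 * Real.log b) := by
    rcases Nat.eq_zero_or_pos D with h0 | h0
    · rw [h0]; simp; positivity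
    have e1 : 2 ^ Nat.log 2 D ≤ D := Nat.pow_log_le_self 2 h0.ne'
    have e2 : (2 : ℝ) ^ Nat.log 2 D ≤ (b : ℝ) ^ (κ * L) := by
      have : (2 : ℝ) ^ Nat.log 2 D ≤ D := by exact_mod_cast e1
      exact this.trans hDr
    have e3 := Real.log_le_log (by positivity) e2
    rw [Real.log_pow, Real.log_rpow (by linarith)] at e3
    have hl2 : 1 / 2 ≤ Real.log 2 := by
      have := Real.log_two_gt_d9
      linarith
    have e5 : κ * L * Real.log b ≤ 1 * L * Real.log b := by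
      apply mul_le_mul_of_nonneg_right _ hBl.le
      apply mul_le_mul_of_nonneg_right h1.le (by linarith)
    have e6 : 1 * (L : ℝ) * Real.log b ≤ L * (2 * Real.log b) * Real.log 2 := by
      have : 0 ≤ (L : ℝ) * Real.log b := by positivity
      nlinarith
    exact le_of_mul_le_mul_right (e3.trans (e5.trans e6)) (by linarith)
  calc (Nat.log 2 D : ℝ) * (1 / (L : ℝ) ^ (A + 2)) ≤ L * (2 * Real.log b) * (1 / (L : ℝ) ^ (A + 2)) :=
        mul_le_mul_of_nonneg_right hlog (by positivity)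
    _ ≤ 1 / (L : ℝ) ^ A := by
        rw [mul_one_div, div_le_div_iff₀ (by positivity) (by positivity), one_mul, pow_add]
        have h0 : 0 < (L : ℝ) ^ A := by positivity
        have : (L : ℝ) * (2 * Real.log b) ≤ L ^ 2 := by nlinarith
        nlinarith

/-- **PW-6** -/
theorem main : Pool.Agent.W89.PW.TaskBV := by
  intro b s t hb hs ht _ hP κ hκ0 hκ1 hB A
  have hb0 : 0 < b := by omega
  have hbr : (0 : ℝ) < b := by exact_mod_cast hb0
  have hb1 : (1 : ℝ) ≤ b := by exact_mod_cast hb0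
  filter_upwards [U_sum b s t (by omega) hP κ hκ0 hκ1 hB (A + 5),
    eventually_ge_atTop ((b + 1) ^ 4)] with L hL hLb
  set D := ⌊(b : ℝ) ^ (κ * L)⌋₊ with hD
  have hLb' : ((b : ℝ) + 1) ^ 4 ≤ L := by exact_mod_cast hLb
  have hL1 : (1 : ℝ) ≤ L := by
    have : (1 : ℝ) ≤ ((b : ℝ) + 1) ^ 4 := one_le_pow₀ (by linarith)
    linarith
  have hL0 : (0 : ℝ) < L := by linarith
  have h1 : ∑ q ∈ (Icc 1 D).filter (fun q => q.Coprime (2 * b)),
      (q.divisors.card : ℝ) ^ 2 * |cnt b s t L q - ((s : ℝ) * t) ^ L / q| ≤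
      ∑ q ∈ (Icc 1 D).filter (fun q => q.Coprime (2 * b)),
      (q.divisors.card : ℝ) ^ 2 *
        (((s : ℝ) * t) ^ L / q * ∑ d ∈ q.divisors.filter (fun d => 1 < d), U b s t L d) := by
    refine sum_le_sum fun q hq => ?_
    rw [mem_filter] at hq
    exact mul_le_mul_of_nonneg_left (cnt_bound hs ht b L q hq.2) (by positivity)
  have h2 := h1.trans (double b s t L D)
  have h3 := Pool.Agent.H316R2.tau_sq_sum_le D
  have hlog : 1 + Real.log D ≤ (b + 1) * L := by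
    rcases Nat.eq_zero_or_pos D with h0 | h0
    · rw [h0]
      simp only [Nat.cast_zero, Real.log_zero, add_zero]
      nlinarith
    · have hDle : (D : ℝ) ≤ (b : ℝ) ^ (κ * L) := Nat.floor_le (by positivity)
      have hDle2 : (D : ℝ) ≤ (b : ℝ) ^ ((1 : ℝ) * L) := by
        refine hDle.trans (Real.rpow_le_rpow_of_exponent_le hb1 ?_)
        exact mul_le_mul_of_nonneg_right hκ1.le hL0.le
      have h4 : Real.log D ≤ (1 * L) * Real.log b := by
        rw [← Real.log_rpow hbr]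
        exact Real.log_le_log (by exact_mod_cast h0) hDle2
      have h5 : Real.log b ≤ b - 1 := Real.log_le_sub_one_of_pos hbr
      have h6 : (1 * L) * Real.log b ≤ (1 * L) * ((b : ℝ) - 1) :=
        mul_le_mul_of_nonneg_left h5 (by positivity)
      nlinarith [mul_pos hbr hL0]
  have hlog0 : 0 ≤ 1 + Real.log D := by
    have := Real.log_natCast_nonneg D
    linarith
  have h4 : ∑ e ∈ Icc 1 D, (e.divisors.card : ℝ) ^ 2 / e ≤ ((b : ℝ) + 1) ^ 4 * (L : ℝ) ^ 4 := by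
    refine h3.trans ?_
    calc (1 + Real.log D) ^ 4 ≤ (((b : ℝ) + 1) * (L : ℝ)) ^ 4 := by gcongr
      _ = ((b : ℝ) + 1) ^ 4 * (L : ℝ) ^ 4 := by ring
  refine h2.trans ?_
  have hS0 : 0 ≤ ∑ e ∈ Icc 1 D, (e.divisors.card : ℝ) ^ 2 / e :=
    sum_nonneg fun _ _ => by positivity
  calc ((s : ℝ) * t) ^ L * ((∑ d ∈ (Icc 2 D).filter (fun q => q.Coprime (2 * b)),
      (d.divisors.card : ℝ) ^ 2 * U b s t L d / d) *
        ∑ e ∈ Icc 1 D, (e.divisors.card : ℝ) ^ 2 / e)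
      ≤ ((s : ℝ) * t) ^ L * ((1 / (L : ℝ) ^ (A + 5)) * (((b : ℝ) + 1) ^ 4 * (L : ℝ) ^ 4)) :=
        mul_le_mul_of_nonneg_left (mul_le_mul hL h4 hS0 (by positivity)) (by positivity)
    _ ≤ ((s : ℝ) * t) ^ L / (L : ℝ) ^ A := by
        generalize ((b : ℝ) + 1) ^ 4 = B at hLb'
        have h5 : (1 / (L : ℝ) ^ (A + 5)) * (B * (L : ℝ) ^ 4) = B / L * (1 / (L : ℝ) ^ A) := by
          have hy : ((L : ℝ) ^ A) ≠ 0 := by positivity
          have hx : (L : ℝ) ≠ 0 := hL0.ne'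
          rw [pow_add]
          generalize (L : ℝ) ^ A = y at hy
          generalize (L : ℝ) = x at hx
          field_simp
        rw [h5]
        have h6 : B / (L : ℝ) ≤ 1 := by rw [div_le_one hL0]; exact hLb'
        have h7 : (0 : ℝ) < 1 / (L : ℝ) ^ A := by positivity
        calc ((s : ℝ) * t) ^ L * (B / L * (1 / (L : ℝ) ^ A))
            ≤ ((s : ℝ) * t) ^ L * (1 * (1 / (L : ℝ) ^ A)) := by gcongr
          _ = _ := by ring

end Pool.Agent.W261.PWBV
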